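import Pool.Agent.H24.CL.Targets

/-!
Row MP of `clv_modules`: the maps `phi q b` are continuous, surjective and preserve the Haar
probability measure of the torus.
-/

set_option autoImplicit false

open Finset MeasureTheory

namespace Pool.Agent.H75.CLV

open Pool.Agent.H24.CL

/-- coefficient of `a j` in the coordinate `i` of `phi q b a` -/
def cf (q b j i : ℕ) : ℕ := Nat.choose (j + 1) (i + 1) * b ^ (j - i) * q ^ (i + 1)

lemma phi_apply {k : ℕ} (q b : ℕ) (a : X k) (i : Fin k) :
    phi q b a i = ∑ j : Fin k, cf q b j.val i.val • a j := rfl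

lemma cf_lt {q b j i : ℕ} (h : j < i) : cf q b j i = 0 := by
  unfold cf
  rw [Nat.choose_eq_zero_of_lt (by omega)]
  simp

lemma cf_self (q b i : ℕ) : cf q b i i = q ^ (i + 1) := by
  unfold cf
  simp

/-- the circle is divisible -/
lemma div_circle (n : ℕ) (hn : n ≠ 0) (y : UnitAddCircle) : ∃ x : UnitAddCircle, n • x = y := by
  induction y using QuotientAddGroup.induction_on with
  | H r =>
    refine ⟨((r / n : ℝ) : UnitAddCircle), ?_⟩
    have h : n • (r / n : ℝ) = r := by
      rw [nsmul_eq_mul]
      field_simp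
    have h2 : n • (((r / n : ℝ)) : UnitAddCircle) = ((n • (r / n : ℝ) : ℝ) : UnitAddCircle) := rfl
    rw [h2, h]

lemma cont (k q b : ℕ) : Continuous (phi q b : X k → X k) := by
  refine continuous_pi fun i => ?_
  have h : (fun a : X k => phi q b a i) = fun a : X k => ∑ j : Fin k, cf q b j.val i.val • a j :=
    rfl
  rw [h]
  exact continuous_finsetSum _ fun j _ => (continuous_apply j).nsmul _

/-- solve the coordinates from the top down -/
lemma solve (k q b : ℕ) (hq : 1 ≤ q) (y : X k) :
    ∀ m : ℕ, m ≤ k → ∃ a : X k, ∀ i : Fin k, k ≤ i.val + m → phi q b a i = y i := by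
  intro m
  induction m with
  | zero =>
    intro _
    exact ⟨0, fun i hi => absurd i.2 (by omega)⟩
  | succ m ih =>
    intro hm
    obtain ⟨a, ha⟩ := ih (by omega)
    have hlt : k - m - 1 < k := by omega
    set i₀ : Fin k := ⟨k - m - 1, hlt⟩ with hi₀
    obtain ⟨x, hx⟩ := div_circle (q ^ (i₀.val + 1)) (by positivity)
      (y i₀ - ∑ j ∈ univ.erase i₀, cf q b j.val i₀.val • a j)
    refine ⟨Function.update a i₀ x, fun i hi => ?_⟩
    have key : ∀ i : Fin k, phi q b (Function.update a i₀ x) i =
        cf q b i₀.val i.val • x + ∑ j ∈ univ.erase i₀, cf q b j.val i.val • a j := by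
      intro i
      rw [phi_apply, ← Finset.add_sum_erase _ _ (Finset.mem_univ i₀), Function.update_self]
      congr 1
      refine Finset.sum_congr rfl fun j hj => ?_
      rw [Function.update_of_ne (Finset.ne_of_mem_erase hj)]
    rw [key]
    rcases eq_or_ne i i₀ with h | h
    · subst h
      rw [cf_self, hx, sub_add_cancel]
    · have hv : i.val ≠ i₀.val := fun h' => h (Fin.ext h')
      have hi₀v : i₀.val = k - m - 1 := rfl
      have h1 : i₀.val < i.val := by omega
      rw [cf_lt h1, zero_smul, zero_add, ← ha i (by omega), phi_apply,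
        ← Finset.add_sum_erase _ _ (Finset.mem_univ i₀), cf_lt h1, zero_smul, zero_add]

theorem pf_MP : T_MP := by
  intro k q b hq
  have hc := cont k q b
  have hs : Function.Surjective (phi q b : X k → X k) := by
    intro y
    obtain ⟨a, ha⟩ := solve k q b hq y k le_rfl
    exact ⟨a, funext fun i => ha i (by omega)⟩
  exact ⟨hc, hs, AddMonoidHom.measurePreserving hc hs rfl⟩

end Pool.Agent.H75.CLV
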